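import Pool.Agent.U623.HB.RealV

/-! # Values with a common last part and several different letters before it, real coefficients -/

set_option autoImplicit false

open Filter Topology

namespace Pool.Agent.U623.HB

open Pool.Agent.U623.HF
open Pool.Agent.H447R2.MZ (H H_cons H_cons_succ H_nil H_nonneg H_mono val Adm H_le_val)

theorem mixedR (U : Finset (List ℕ)) (hU : ∀ u ∈ U, Adm u) (K : ℕ) (c : ℕ → List ℕ → ℝ) :
    ∃ n0 J : ℕ, 1 ≤ J ∧ ∀ (a : ℕ → ℕ) (s : List ℕ),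
      (∀ i j, i < j → j < K → a i < a j) → (∀ k < K, 1 ≤ a k) → (∀ x ∈ s, 1 ≤ x) →
      (∀ k < K, ∀ u ∈ U, Adm (u ++ a k :: s)) → n0 ≤ s.length + 1 →
      ∀ k < K, (∃ u ∈ U, c k u ≠ 0) →
        0 < val ((a k + J) :: s) ∧ val ((a k + J) :: s) ≤
          |∑ k ∈ Finset.range K, ∑ u ∈ U, c k u * val (u ++ a k :: s)| := by
  classical
  by_cases hex : ∃ k, k < K ∧ ∃ u ∈ U, c k u ≠ 0
  swap
  · exact ⟨0, 1, le_rfl, fun a s _ _ _ _ _ k hk hck => absurd ⟨k, hk, hck⟩ hex⟩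
  obtain ⟨W, hWd⟩ : ∃ W, W = U.image List.reverse := ⟨_, rfl⟩
  have hW : ∀ w ∈ W, RA w := by
    intro w hw
    rw [hWd] at hw
    obtain ⟨u, hu, rfl⟩ := Finset.mem_image.1 hw
    unfold RA
    rw [List.reverse_reverse]
    exact hU u hu
  -- the first nonzero index
  obtain ⟨k0, ⟨hk0, hz0⟩, hmin⟩ : ∃ k0, (k0 < K ∧ ∃ u ∈ U, c k0 u ≠ 0) ∧
      ∀ i < k0, ∀ u ∈ U, c i u = 0 := by
    refine ⟨Nat.find hex, Nat.find_spec hex, fun i hi u hu => ?_⟩
    have h1 := Nat.find_min hex hi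
    by_contra h2
    exact h1 ⟨hi.trans (Nat.find_spec hex).1, u, hu, h2⟩
  obtain ⟨r, hr⟩ : ∃ r, r = K - 1 - k0 := ⟨_, rfl⟩
  obtain ⟨c', hc'⟩ : ∃ c' : ℕ → List ℕ → ℝ, c' = fun i w => c (k0 + i) w.reverse := ⟨_, rfl⟩
  obtain ⟨κ1, hκ1, J1, m1, hst⟩ := stageR W hW c' (by
    obtain ⟨u, hu, hne⟩ := hz0
    refine ⟨u.reverse, by rw [hWd]; exact Finset.mem_image_of_mem _ hu, ?_⟩
    rw [hc']
    simp only [add_zero, List.reverse_reverse]
    exact hne) r
  obtain ⟨n2, hn2⟩ := exists_nat_ge (1 / κ1)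
  rw [div_le_iff₀ hκ1] at hn2
  refine ⟨max m1 n2, J1 + 1, by omega, fun a s hmono ha1 hs hadm hlen k hk hzk => ?_⟩
  have hk0k : k0 ≤ k := by
    by_contra hcon
    push Not at hcon
    obtain ⟨u, hu, hne⟩ := hzk
    exact hne (hmin k hcon u hu)
  have hak : ∀ i, k0 + i < K → a k0 ≤ a (k0 + i) := by
    intro i hi
    rcases Nat.eq_zero_or_pos i with rfl | h0
    · exact le_rfl
    · exact (hmono k0 (k0 + i) (by omega) hi).le
  have hakk : a k0 ≤ a k := by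
    have := hak (k - k0) (by omega)
    rwa [Nat.add_sub_cancel' hk0k] at this
  obtain ⟨e, he⟩ : ∃ e : ℕ → ℕ, e = fun i => a (k0 + i) - a k0 := ⟨_, rfl⟩
  obtain ⟨ε, hε, hb⟩ := hst e (by rw [he]; simp) (by
    intro i j hij hj
    rw [he]
    have h1 := hmono (k0 + i) (k0 + j) (by omega) (by omega)
    have h2 := hak i (by omega)
    simp only
    omega)
  have hadm' : Adm ((a k + (J1 + 1)) :: s) := by
    refine ⟨fun x hx => ?_, fun x t hx => ?_⟩
    · rw [List.mem_cons] at hx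
      rcases hx with rfl | hx
      · omega
      · exact hs x hx
    · rw [List.cons.injEq] at hx
      have := ha1 k hk
      omega
  have hpos : 0 < val ((a k + (J1 + 1)) :: s) := lt_of_lt_of_le (H_pos _ _ le_rfl) (H_le_val _ hadm' _)
  refine ⟨hpos, ?_⟩
  -- the two sums
  obtain ⟨f, hf⟩ : ∃ f : ℕ → ℝ, f = fun m => ∑ k ∈ Finset.range K, ∑ u ∈ U,
      c k u * (T u.reverse (m + 1) * ((((m + 1 : ℕ) : ℝ) ^ a k)⁻¹ * H s m)) := ⟨_, rfl⟩
  have hS : HasSum (fun m => ε * f m) (ε * ∑ k ∈ Finset.range K, ∑ u ∈ U, c k u * val (u ++ a k :: s)) := by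
    refine HasSum.mul_left ε ?_
    rw [hf]
    refine hasSum_sum fun k hk => hasSum_sum fun u hu => ?_
    have h2 := hs_sum u.reverse (a k) s (by
      rw [List.reverse_reverse]
      exact hadm k (Finset.mem_range.1 hk) u hu)
    rw [List.reverse_reverse] at h2
    exact h2.mul_left _
  have hfm : ∀ m, f m = SR W r e c' (m + 1) * ((((m + 1 : ℕ) : ℝ) ^ a k0)⁻¹ * H s m) := by
    intro m
    have m0 : ((m + 1 : ℕ) : ℝ) ≠ 0 := by positivity
    rw [hf]
    simp only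
    rw [← Finset.sum_range_add_sum_Ico _ hk0.le]
    have h1 : ∑ k ∈ Finset.range k0, ∑ u ∈ U,
        c k u * (T u.reverse (m + 1) * ((((m + 1 : ℕ) : ℝ) ^ a k)⁻¹ * H s m)) = 0 := by
      refine Finset.sum_eq_zero fun i hi => Finset.sum_eq_zero fun u hu => ?_
      rw [hmin i (Finset.mem_range.1 hi) u hu, zero_mul]
    rw [h1, zero_add, Finset.sum_Ico_eq_sum_range]
    unfold SR
    rw [show K - k0 = r + 1 by omega, Finset.sum_mul]
    refine Finset.sum_congr rfl fun i hi => ?_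
    have hi' : i < r + 1 := Finset.mem_range.1 hi
    rw [Finset.sum_mul, hWd, Finset.sum_image fun x _ y _ hxy => List.reverse_injective hxy]
    refine Finset.sum_congr rfl fun u _ => ?_
    rw [hc']
    simp only [List.reverse_reverse]
    have h3 : a (k0 + i) = e i + a k0 := by
      have := hak i (by omega)
      rw [he]
      simp only
      omega
    rw [h3, pow_add, mul_inv]
    ring
  have hR := (base_sum _ s hadm')
  have hfin : val ((a k + (J1 + 1)) :: s) ≤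
      ε * ∑ k ∈ Finset.range K, ∑ u ∈ U, c k u * val (u ++ a k :: s) := by
    refine hasSum_le (fun m => ?_) hR hS
    rw [hfm]
    rcases lt_or_ge m s.length with hm | hm
    · rw [H_zero s m hm]
      simp
    · have hm2 : (1 : ℝ) ≤ ((m + 1 : ℕ) : ℝ) := by
        push_cast; have : (0 : ℝ) ≤ m := m.cast_nonneg; linarith
      have h1 := hb (m + 1) (by have := (le_max_left m1 n2).trans hlen; omega)
      have hH0 : 0 ≤ H s m := H_nonneg s m
      have h2 : (((m + 1 : ℕ) : ℝ) ^ (a k + (J1 + 1)))⁻¹ ≤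
          κ1 * (((m + 1 : ℕ) : ℝ) ^ J1)⁻¹ * (((m + 1 : ℕ) : ℝ) ^ a k0)⁻¹ := by
        have h5 : (((m + 1 : ℕ) : ℝ) ^ (a k + (J1 + 1)))⁻¹ ≤
            ((m + 1 : ℕ) : ℝ)⁻¹ * ((((m + 1 : ℕ) : ℝ) ^ J1)⁻¹ * (((m + 1 : ℕ) : ℝ) ^ a k0)⁻¹) := by
          rw [← mul_inv, ← pow_add, ← mul_inv, ← pow_succ']
          exact inv_anti₀ (by positivity) (pow_le_pow_right₀ hm2 (by omega))
        have h6 : ((m + 1 : ℕ) : ℝ)⁻¹ ≤ κ1 := by
          rw [inv_le_comm₀ (by positivity) hκ1]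
          have h7 : (n2 : ℝ) ≤ ((m + 1 : ℕ) : ℝ) := by
            have := (le_max_right m1 n2).trans hlen
            exact_mod_cast (by omega : n2 ≤ m + 1)
          have h8 : κ1⁻¹ ≤ n2 := by
            rw [inv_eq_one_div, div_le_iff₀ hκ1]
            exact hn2
          exact h8.trans h7
        calc _ ≤ _ := h5
          _ ≤ κ1 * ((((m + 1 : ℕ) : ℝ) ^ J1)⁻¹ * (((m + 1 : ℕ) : ℝ) ^ a k0)⁻¹) :=
              mul_le_mul_of_nonneg_right h6 (by positivity)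
          _ = _ := by ring
      calc (((m + 1 : ℕ) : ℝ) ^ (a k + (J1 + 1)))⁻¹ * H s m
          ≤ (κ1 * (((m + 1 : ℕ) : ℝ) ^ J1)⁻¹ * (((m + 1 : ℕ) : ℝ) ^ a k0)⁻¹) * H s m :=
            mul_le_mul_of_nonneg_right h2 hH0
        _ = (κ1 * (((m + 1 : ℕ) : ℝ) ^ J1)⁻¹) * ((((m + 1 : ℕ) : ℝ) ^ a k0)⁻¹ * H s m) := by ring
        _ ≤ (ε * SR W r e c' (m + 1)) * ((((m + 1 : ℕ) : ℝ) ^ a k0)⁻¹ * H s m) :=
            mul_le_mul_of_nonneg_right h1 (mul_nonneg (by positivity) hH0)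
        _ = _ := by ring
  refine hfin.trans ?_
  rcases hε with rfl | rfl
  · rw [one_mul]; exact le_abs_self _
  · rw [neg_one_mul]; exact neg_le_abs _

end Pool.Agent.U623.HB
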