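import Pool.Agent.U623.HB.Low

/-! # The families `T_w(m) m^(-i)` -/

set_option autoImplicit false

open Filter Topology Polynomial Asymptotics

namespace Pool.Agent.U623.HB

open Pool.Agent.U623.HF

/-- the family `T_w(m) m^(-i)`, `w ∈ W`, `i ≤ I` -/
noncomputable def fam (W : Finset (List ℕ)) (I : ℕ) (p : W × Fin (I + 1)) (m : ℕ) : ℝ :=
  T p.1.1 m * ((m : ℝ) ^ (p.2 : ℕ))⁻¹

lemma fam_exn (W : Finset (List ℕ)) (hW : ∀ w ∈ W, RA w) (I : ℕ) : Exn (fam W I) := by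
  intro p J
  obtain ⟨P, -, hP⟩ := (T_Ex p.1.1 (hW _ p.1.2)).1 J
  refine ⟨P * X ^ (p.2 : ℕ), ?_⟩
  have h1 := hP.mul (isBigO_refl (fun m : ℕ => ((m : ℝ) ^ (p.2 : ℕ))⁻¹) atTop)
  have h2 : (fun m : ℕ => fam W I p m - aeval ((m : ℝ)⁻¹) (P * X ^ (p.2 : ℕ))) =
      fun m : ℕ => (T p.1.1 m - aeval ((m : ℝ)⁻¹) P) * ((m : ℝ) ^ (p.2 : ℕ))⁻¹ := by
    funext m
    unfold fam
    rw [map_mul, map_pow, aeval_X, inv_pow]
    ring
  rw [h2]
  refine h1.trans (IsBigO.of_bound 1 ?_)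
  filter_upwards [eventually_ge_atTop 1] with m hm
  have m1 : (1 : ℝ) ≤ m := by exact_mod_cast hm
  have h3 : ((m : ℝ) ^ (p.2 : ℕ))⁻¹ ≤ 1 := inv_le_one_of_one_le₀ (one_le_pow₀ m1)
  rw [one_mul, Real.norm_of_nonneg (by positivity), Real.norm_of_nonneg (by positivity)]
  exact mul_le_of_le_one_right (by positivity) h3

lemma fam_ind (W : Finset (List ℕ)) (hW : ∀ w ∈ W, RA w) (I : ℕ) : Ind (fam W I) := by
  classical
  intro c hc
  obtain ⟨P, hP⟩ : ∃ P : List ℕ → ℝ[X], P = fun w => if h : w ∈ W then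
      ∑ i : Fin (I + 1), C (c (⟨w, h⟩, i)) * X ^ (I - (i : ℕ)) else 0 := ⟨_, rfl⟩
  have hPW : ∀ w, w ∉ W → P w = 0 := fun w hw => by rw [hP]; exact dif_neg hw
  have h1 := negl_poly_mul (X ^ I) hc
  have h2 : Negl (rel W P) := negl_congr h1 (by
    filter_upwards [eventually_ge_atTop 1] with m hm
    have m0 : (m : ℝ) ≠ 0 := by exact_mod_cast (by omega : m ≠ 0)
    unfold rel
    rw [← Finset.sum_coe_sort W, Fintype.sum_prod_type, eval_pow, eval_X, Finset.mul_sum]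
    refine Finset.sum_congr rfl fun w _ => ?_
    rw [hP]
    simp only [dif_pos w.2]
    rw [eval_finsetSum, Finset.mul_sum, Finset.sum_mul]
    refine Finset.sum_congr rfl fun i _ => ?_
    unfold fam
    rw [eval_mul, eval_C, eval_pow, eval_X]
    have hi : (i : ℕ) ≤ I := Nat.lt_succ_iff.1 i.2
    have e : (m : ℝ) ^ I = (m : ℝ) ^ (I - (i : ℕ)) * (m : ℝ) ^ (i : ℕ) := by
      rw [← pow_add, Nat.sub_add_cancel hi]
    rw [e]
    have m0' : (m : ℝ) ^ (i : ℕ) ≠ 0 := pow_ne_zero _ m0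
    simp only
    field_simp)
  have h3 := indep_aux (W.sup List.length) W.card W P hPW hW
    (fun v hv => by
      have hvW : v ∈ W := by
        by_contra hcon
        exact hv (hPW v hcon)
      exact Finset.le_sup (f := List.length) hvW)
    (fun S hS => Finset.card_le_card fun v hv => (hS v hv).1) h2
  funext p
  obtain ⟨w, i⟩ := p
  have h4 := h3 w.1
  rw [hP] at h4
  simp only [dif_pos w.2] at h4
  have h5 := congrArg (fun Q : ℝ[X] => Q.coeff (I - (i : ℕ))) h4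
  simp only [finsetSum_coeff, coeff_C_mul, coeff_X_pow, coeff_zero] at h5
  rw [Finset.sum_eq_single i] at h5
  · simpa using h5
  · intro j _ hj
    have hi : (i : ℕ) ≤ I := Nat.lt_succ_iff.1 i.2
    have hj' : (j : ℕ) ≤ I := Nat.lt_succ_iff.1 j.2
    rw [if_neg, mul_zero]
    intro h
    exact hj (Fin.ext (by omega))
  · intro h
    exact absurd (Finset.mem_univ _) h

end Pool.Agent.U623.HB
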