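import Pool.Agent.U623.HB.Stage

/-! # Values with a common last part and several different letters before it -/

set_option autoImplicit false

open Filter Topology

namespace Pool.Agent.U623.HB

open Pool.Agent.U623.HF
open Pool.Agent.H447R2.MZ (H H_cons H_cons_succ H_nil H_nonneg H_mono val Adm H_le_val)

theorem mixed (U : Finset (List ℕ)) (hU : ∀ u ∈ U, Adm u) {ι' : Type} [Fintype ι'] {θ : ι' → ℝ}
    (hθ : LMe θ) (K : ℕ) : ∃ κ : ℝ, 0 < κ ∧ ∃ E J : ℕ, 1 ≤ J ∧ ∀ (a : ℕ → ℕ) (s : List ℕ),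
      (∀ i j, i < j → j < K → a i < a j) → (∀ k < K, 1 ≤ a k) → (∀ x ∈ s, 1 ≤ x) →
      (∀ k < K, ∀ u ∈ U, Adm (u ++ a k :: s)) →
      ∀ (z : ℕ → List ℕ → ι' → ℤ) (h : ℝ), 1 ≤ h → (∀ k < K, ∀ u ∈ U, ∀ l, |(z k u l : ℝ)| ≤ h) →
      h ^ E ≤ κ * (s.length + 1) →
      ∀ k < K, (∃ u ∈ U, ∃ l, z k u l ≠ 0) →
        0 < val ((a k + J) :: s) ∧ κ * (h ^ E)⁻¹ * val ((a k + J) :: s) ≤
          |∑ k ∈ Finset.range K, ∑ u ∈ U, (∑ l, (z k u l : ℝ) * θ l) * val (u ++ a k :: s)| := by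
  classical
  obtain ⟨W, hWd⟩ : ∃ W, W = U.image List.reverse := ⟨_, rfl⟩
  have hW : ∀ w ∈ W, RA w := by
    intro w hw
    rw [hWd] at hw
    obtain ⟨u, hu, rfl⟩ := Finset.mem_image.1 hw
    unfold RA
    rw [List.reverse_reverse]
    exact hU u hu
  obtain ⟨κ1, hκ1, E, J1, m1, hst⟩ := stage W hW hθ K
  obtain ⟨κ, hκ⟩ : ∃ κ : ℝ, κ = min κ1 (1 / ((m1 : ℝ) + 1)) := ⟨_, rfl⟩
  have hκp : 0 < κ := by rw [hκ]; exact lt_min hκ1 (by positivity)
  have hκκ1 : κ ≤ κ1 := by rw [hκ]; exact min_le_left _ _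
  have hκm1 : κ ≤ 1 / ((m1 : ℝ) + 1) := by rw [hκ]; exact min_le_right _ _
  refine ⟨κ, hκp, E, J1 + 1, by omega, fun a s hmono ha1 hs hadm z h hh hzh hlen k hk hzk => ?_⟩
  -- the first nonzero index
  have hex : ∃ k, k < K ∧ ∃ u ∈ U, ∃ l, z k u l ≠ 0 := ⟨k, hk, hzk⟩
  obtain ⟨k0, ⟨hk0, hz0⟩, hmin⟩ : ∃ k0, (k0 < K ∧ ∃ u ∈ U, ∃ l, z k0 u l ≠ 0) ∧
      ∀ i < k0, ∀ u ∈ U, ∀ l, z i u l = 0 := by
    refine ⟨Nat.find hex, Nat.find_spec hex, fun i hi u hu l => ?_⟩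
    have h1 := Nat.find_min hex hi
    by_contra h2
    exact h1 ⟨hi.trans (Nat.find_spec hex).1, u, hu, l, h2⟩
  have hk0k : k0 ≤ k := by
    by_contra hcon
    push Not at hcon
    obtain ⟨u, hu, l, hne⟩ := hzk
    exact hne (hmin k hcon u hu l)
  have hak : ∀ i, k0 + i < K → a k0 ≤ a (k0 + i) := by
    intro i hi
    rcases Nat.eq_zero_or_pos i with rfl | h0
    · exact le_rfl
    · exact (hmono k0 (k0 + i) (by omega) hi).le
  have hakk : a k0 ≤ a k := by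
    have := hak (k - k0) (by omega)
    rwa [Nat.add_sub_cancel' hk0k] at this
  obtain ⟨r, hr⟩ : ∃ r, r = K - 1 - k0 := ⟨_, rfl⟩
  obtain ⟨e, he⟩ : ∃ e : ℕ → ℕ, e = fun i => a (k0 + i) - a k0 := ⟨_, rfl⟩
  obtain ⟨z', hz'⟩ : ∃ z' : ℕ → W → ι' → ℤ, z' = fun i w l => z (k0 + i) w.1.reverse l := ⟨_, rfl⟩
  have hWU' : ∀ w : List ℕ, w ∈ W → w.reverse ∈ U := by
    intro w h1
    rw [hWd] at h1
    obtain ⟨u, hu, hu2⟩ := Finset.mem_image.1 h1
    rw [← hu2, List.reverse_reverse]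
    exact hu
  have hWU : ∀ w : W, w.1.reverse ∈ U := fun w => hWU' w.1 w.2
  obtain ⟨ε, hε, hb⟩ := hst r e (by omega) (by rw [he]; simp) (by
    intro i j hij hj
    rw [he]
    have h1 := hmono (k0 + i) (k0 + j) (by omega) (by omega)
    have h2 := hak i (by omega)
    simp only
    omega) z' (by
    obtain ⟨u, hu, l, hne⟩ := hz0
    refine ⟨⟨u.reverse, by rw [hWd]; exact Finset.mem_image_of_mem _ hu⟩, l, ?_⟩
    rw [hz']
    simp only [add_zero, List.reverse_reverse]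
    exact hne)
  have hadm' : Adm ((a k + (J1 + 1)) :: s) := by
    refine ⟨fun x hx => ?_, fun x t hx => ?_⟩
    · rw [List.mem_cons] at hx
      rcases hx with rfl | hx
      · omega
      · exact hs x hx
    · rw [List.cons.injEq] at hx
      have := ha1 k hk
      omega
  have hpos : 0 < val ((a k + (J1 + 1)) :: s) := lt_of_lt_of_le (H_pos _ _ le_rfl) (H_le_val _ hadm' _)
  refine ⟨hpos, ?_⟩
  have hh0 : 0 < h := by linarith
  have hE1 : (1 : ℝ) ≤ h ^ E := one_le_pow₀ hh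
  have hL0 : (0 : ℝ) < (s.length : ℝ) + 1 := by positivity
  have hm1L : (m1 : ℝ) + 1 ≤ (s.length : ℝ) + 1 := by
    have h1 : (1 : ℝ) ≤ 1 / ((m1 : ℝ) + 1) * (s.length + 1) :=
      hE1.trans (hlen.trans (mul_le_mul_of_nonneg_right hκm1 hL0.le))
    rw [div_mul_eq_mul_div, one_mul, le_div_iff₀ (by positivity), one_mul] at h1
    exact h1
  obtain ⟨c, hc⟩ : ∃ c : ℕ → List ℕ → ℝ, c = fun k u => ∑ l, (z k u l : ℝ) * θ l := ⟨_, rfl⟩
  have hcu : ∀ k u, ∑ l, (z k u l : ℝ) * θ l = c k u := fun k u => by rw [hc]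
  simp only [hcu]
  -- the two sums
  obtain ⟨f, hf⟩ : ∃ f : ℕ → ℝ, f = fun m => ∑ k ∈ Finset.range K, ∑ u ∈ U,
      c k u * (T u.reverse (m + 1) * ((((m + 1 : ℕ) : ℝ) ^ a k)⁻¹ * H s m)) := ⟨_, rfl⟩
  have hS : HasSum (fun m => ε * f m) (ε * ∑ k ∈ Finset.range K, ∑ u ∈ U, c k u * val (u ++ a k :: s)) := by
    refine HasSum.mul_left ε ?_
    rw [hf]
    refine hasSum_sum fun k hk => hasSum_sum fun u hu => ?_
    have h2 := hs_sum u.reverse (a k) s (by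
      rw [List.reverse_reverse]
      exact hadm k (Finset.mem_range.1 hk) u hu)
    rw [List.reverse_reverse] at h2
    exact h2.mul_left _
  have hfm : ∀ m, f m = SM θ W r e z' (m + 1) * ((((m + 1 : ℕ) : ℝ) ^ a k0)⁻¹ * H s m) := by
    intro m
    have m0 : ((m + 1 : ℕ) : ℝ) ≠ 0 := by positivity
    rw [hf]
    simp only
    rw [← Finset.sum_range_add_sum_Ico _ hk0.le]
    have h1 : ∑ k ∈ Finset.range k0, ∑ u ∈ U,
        c k u * (T u.reverse (m + 1) * ((((m + 1 : ℕ) : ℝ) ^ a k)⁻¹ * H s m)) = 0 := by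
      refine Finset.sum_eq_zero fun i hi => Finset.sum_eq_zero fun u hu => ?_
      rw [hc]
      simp only
      rw [Finset.sum_eq_zero fun l _ => by
        rw [hmin i (Finset.mem_range.1 hi) u hu l, Int.cast_zero, zero_mul], zero_mul]
    rw [h1, zero_add, Finset.sum_Ico_eq_sum_range]
    unfold SM
    rw [show K - k0 = r + 1 by omega, Finset.sum_mul]
    refine Finset.sum_congr rfl fun i hi => ?_
    have hi' : i < r + 1 := Finset.mem_range.1 hi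
    rw [Finset.sum_mul]
    have h2 : ∑ w : W, (∑ l, (z' i w l : ℝ) * θ l) * (T w.1 (m + 1) * (((m + 1 : ℕ) : ℝ) ^ e i)⁻¹) *
        ((((m + 1 : ℕ) : ℝ) ^ a k0)⁻¹ * H s m) =
        ∑ w : W, (fun w : List ℕ => c (k0 + i) w.reverse * (T w (m + 1) *
          ((((m + 1 : ℕ) : ℝ) ^ a (k0 + i))⁻¹ * H s m))) w.1 := by
      refine Finset.sum_congr rfl fun w _ => ?_
      rw [hz']
      simp only [hcu]
      have h3 : a (k0 + i) = e i + a k0 := by
        have := hak i (by omega)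
        rw [he]
        simp only
        omega
      rw [h3, pow_add, mul_inv]
      ring
    rw [h2, Finset.sum_coe_sort W (fun w : List ℕ => c (k0 + i) w.reverse * (T w (m + 1) *
          ((((m + 1 : ℕ) : ℝ) ^ a (k0 + i))⁻¹ * H s m))), hWd,
      Finset.sum_image fun x _ y _ hxy => List.reverse_injective hxy]
    refine Finset.sum_congr rfl fun u _ => ?_
    rw [List.reverse_reverse]
  have hR := (base_sum _ s hadm').mul_left (κ * (h ^ E)⁻¹)
  have hfin : κ * (h ^ E)⁻¹ * val ((a k + (J1 + 1)) :: s) ≤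
      ε * ∑ k ∈ Finset.range K, ∑ u ∈ U, c k u * val (u ++ a k :: s) := by
    refine hasSum_le (fun m => ?_) hR hS
    rw [hfm]
    rcases lt_or_ge m s.length with hm | hm
    · rw [H_zero s m hm]
      simp
    · have hmr : (s.length : ℝ) ≤ m := by exact_mod_cast hm
      have hmm : (s.length : ℝ) + 1 ≤ ((m + 1 : ℕ) : ℝ) := by push_cast; linarith
      have hm2 : (1 : ℝ) ≤ ((m + 1 : ℕ) : ℝ) := by
        push_cast; have : (0 : ℝ) ≤ m := m.cast_nonneg; linarith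
      have h1 := hb h hh (fun i hi w l => by
        rw [hz']
        exact hzh (k0 + i) (by omega) _ (hWU w) l) (m + 1) (by
        have : (m1 : ℝ) ≤ ((m + 1 : ℕ) : ℝ) := by linarith
        exact_mod_cast this)
        (hlen.trans (mul_le_mul hκκ1 hmm hL0.le hκ1.le))
      have hH0 : 0 ≤ H s m := H_nonneg s m
      have hEi : (0 : ℝ) < (h ^ E)⁻¹ := by positivity
      have h2 : (((m + 1 : ℕ) : ℝ) ^ (a k + (J1 + 1)))⁻¹ ≤
          (((m + 1 : ℕ) : ℝ) ^ J1)⁻¹ * (((m + 1 : ℕ) : ℝ) ^ a k0)⁻¹ := by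
        rw [← mul_inv, ← pow_add]
        exact inv_anti₀ (by positivity) (pow_le_pow_right₀ hm2 (by omega))
      calc κ * (h ^ E)⁻¹ * ((((m + 1 : ℕ) : ℝ) ^ (a k + (J1 + 1)))⁻¹ * H s m)
          ≤ κ1 * (h ^ E)⁻¹ * (((((m + 1 : ℕ) : ℝ) ^ J1)⁻¹ * (((m + 1 : ℕ) : ℝ) ^ a k0)⁻¹) * H s m) := by
            refine mul_le_mul (mul_le_mul_of_nonneg_right hκκ1 hEi.le)
              (mul_le_mul_of_nonneg_right h2 hH0) (mul_nonneg (by positivity) hH0) (by positivity)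
        _ = (κ1 * (h ^ E)⁻¹ * (((m + 1 : ℕ) : ℝ) ^ J1)⁻¹) * ((((m + 1 : ℕ) : ℝ) ^ a k0)⁻¹ * H s m) := by
            ring
        _ ≤ (ε * SM θ W r e z' (m + 1)) * ((((m + 1 : ℕ) : ℝ) ^ a k0)⁻¹ * H s m) :=
            mul_le_mul_of_nonneg_right h1 (mul_nonneg (by positivity) hH0)
        _ = _ := by ring
  refine hfin.trans ?_
  rcases hε with rfl | rfl
  · rw [one_mul]; exact le_abs_self _
  · rw [neg_one_mul]; exact neg_le_abs _

end Pool.Agent.U623.HB
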