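import Pool.Agent.U623.HF.Main

/-! # Combinations of functions with asymptotic expansions -/

set_option autoImplicit false

open Filter Topology Polynomial Asymptotics

namespace Pool.Agent.U623.HB

open Pool.Agent.U623.HF

variable {ι : Type} [Fintype ι]

/-- the real combinations of order at least `J` -/
noncomputable def KG (g : ι → ℕ → ℝ) (J : ℕ) : Submodule ℝ (ι → ℝ) where
  carrier := {c | (fun m : ℕ => ∑ w : ι, c w * g w m) =O[atTop] (fun m : ℕ => ((m : ℝ) ^ J)⁻¹)}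
  add_mem' := by
    intro a b ha hb
    have := IsBigO.add ha hb
    refine this.congr_left fun m => ?_
    rw [← Finset.sum_add_distrib]
    refine Finset.sum_congr rfl fun w _ => ?_
    simp only [Pi.add_apply]
    ring
  zero_mem' := by
    have : (fun m : ℕ => ∑ w : ι, (0 : ι → ℝ) w * g w m) = fun _ => (0 : ℝ) := by
      funext m
      simp
    show (fun m : ℕ => ∑ w : ι, (0 : ι → ℝ) w * g w m) =O[atTop] _
    rw [this]
    exact isBigO_zero _ _
  smul_mem' := by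
    intro r a ha
    have := IsBigO.const_mul_left ha r
    refine this.congr_left fun m => ?_
    rw [Finset.mul_sum]
    refine Finset.sum_congr rfl fun w _ => ?_
    simp only [Pi.smul_apply, smul_eq_mul]
    ring

lemma mem_KG {g : ι → ℕ → ℝ} {J : ℕ} {c : ι → ℝ} : c ∈ KG g J ↔
    (fun m : ℕ => ∑ w : ι, c w * g w m) =O[atTop] (fun m : ℕ => ((m : ℝ) ^ J)⁻¹) :=
  Iff.rfl

lemma KG_anti (g : ι → ℕ → ℝ) : Antitone (KG g) :=
  fun _ _ hij _ hc => IsBigO.trans hc (pow_inv_O hij)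

/-- the family is linearly independent modulo functions which decrease rapidly -/
def Ind (g : ι → ℕ → ℝ) : Prop := ∀ c : ι → ℝ, Negl (fun m => ∑ i : ι, c i * g i m) → c = 0

/-- expansions in `1 / m` with rational coefficients -/
def Exn (g : ι → ℕ → ℝ) : Prop := ∀ (i : ι) (J : ℕ), ∃ p : ℚ[X],
  (fun m : ℕ => g i m - aeval ((m : ℝ)⁻¹) p) =O[atTop] (fun m : ℕ => ((m : ℝ) ^ J)⁻¹)

theorem stabG {g : ι → ℕ → ℝ} (hI : Ind g) : ∃ J : ℕ, KG g J = ⊥ := by
  obtain ⟨J, hJ⟩ := IsArtinian.monotone_stabilizes (R := ℝ) (M := ι → ℝ)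
    ⟨fun J => OrderDual.toDual (KG g J), fun i j hij => KG_anti g hij⟩
  refine ⟨J, ?_⟩
  rw [eq_bot_iff]
  intro c hc
  have h1 : ∀ i, c ∈ KG g i := by
    intro i
    rcases le_total i J with h | h
    · exact KG_anti g h hc
    · have := hJ i h
      have h2 : KG g J = KG g i := this
      rw [← h2]
      exact hc
  rw [Submodule.mem_bot]
  exact hI c fun i => mem_KG.1 (h1 i)

/-- **The lower bound for real combinations.** -/
theorem lowerG {g : ι → ℕ → ℝ} (hI : Ind g) (hE : Exn g) :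
    ∃ (q : ℕ → ι → ℚ) (K : ℝ) (J m0 : ℕ), 0 < K ∧ ∀ c : ι → ℝ, c ≠ 0 →
      ∃ j < J, ∑ w : ι, c w * (q j w : ℝ) ≠ 0 ∧ ∃ ε : ℝ, (ε = 1 ∨ ε = -1) ∧
      ∀ H : ℝ, (∀ w : ι, |c w| ≤ H) → ∀ m : ℕ, m0 ≤ m →
        K * H ≤ |∑ w : ι, c w * (q j w : ℝ)| * m →
        |∑ w : ι, c w * (q j w : ℝ)| / 2 * ((m : ℝ) ^ J)⁻¹ ≤ ε * ∑ w : ι, c w * g w m := by
  classical
  obtain ⟨J, hJ⟩ := stabG hI
  have hex : ∀ w : ι, ∃ p : ℚ[X], (fun m : ℕ => g w m - aeval ((m : ℝ)⁻¹) p) =O[atTop]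
      (fun m : ℕ => ((m : ℝ) ^ J)⁻¹) := fun w => hE w J
  choose p hp using hex
  -- the error terms
  obtain ⟨C2, m1, hC2, hm1⟩ : ∃ (C2 : ℝ) (m1 : ℕ), 0 ≤ C2 ∧ ∀ m : ℕ, m1 ≤ m →
      ∑ w : ι, |g w m - aeval ((m : ℝ)⁻¹) (p w)| ≤ C2 * ((m : ℝ) ^ J)⁻¹ := by
    have h1 : (∑ w : ι, fun m : ℕ => |g w m - aeval ((m : ℝ)⁻¹) (p w)|) =O[atTop]
        (fun m : ℕ => ((m : ℝ) ^ J)⁻¹) := IsBigO.sum fun w _ => (hp w).abs_left
    obtain ⟨C, hC, hb⟩ := h1.exists_nonneg
    rw [IsBigOWith] at hb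
    obtain ⟨N, hN⟩ := eventually_atTop.1 hb
    refine ⟨C, N, hC, fun m hm => ?_⟩
    have h2 := hN m hm
    rw [Finset.sum_apply, Real.norm_of_nonneg (Finset.sum_nonneg fun _ _ => abs_nonneg _),
      Real.norm_of_nonneg (by positivity)] at h2
    exact h2
  obtain ⟨N, hN⟩ : ∃ N : ℕ, ∀ w : ι, (p w).natDegree < N := by
    refine ⟨Finset.univ.sup (fun w => (p w).natDegree) + 1, fun w => ?_⟩
    have := Finset.le_sup (f := fun w => (p w).natDegree) (Finset.mem_univ w)
    omega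
  obtain ⟨S, hS⟩ : ∃ S : ℝ, S = ∑ w : ι, ∑ i ∈ Finset.range N, |(((p w).coeff i : ℚ) : ℝ)| := ⟨_, rfl⟩
  have hS0 : 0 ≤ S := by
    rw [hS]
    exact Finset.sum_nonneg fun _ _ => Finset.sum_nonneg fun _ _ => abs_nonneg _
  refine ⟨fun j w => (p w).coeff j, 2 * (S + C2 + 1), J, max m1 1, by positivity, fun c hc => ?_⟩
  have hc' : ∃ w : ι, c w ≠ 0 := by
    by_contra hcon
    push Not at hcon
    exact hc (funext hcon)
  simp only
  obtain ⟨A, hA⟩ : ∃ A : ℕ → ℝ, A = fun i => ∑ w : ι, c w * (((p w).coeff i : ℚ) : ℝ) := ⟨_, rfl⟩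
  have hAi : ∀ i, ∑ w : ι, c w * (((p w).coeff i : ℚ) : ℝ) = A i := fun i => by rw [hA]
  simp only [hAi]
  have haev : ∀ x : ℝ, ∑ w : ι, c w * aeval x (p w) = ∑ i ∈ Finset.range N, A i * x ^ i := by
    intro x
    have h1 : ∀ w : ι, c w * aeval x (p w) =
        ∑ i ∈ Finset.range N, c w * (((p w).coeff i : ℚ) : ℝ) * x ^ i := by
      intro w
      rw [aeval_eq_sum_range' (hN w), Finset.mul_sum]
      refine Finset.sum_congr rfl fun i _ => ?_
      rw [Rat.smul_def]
      ring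
    rw [Finset.sum_congr rfl fun w _ => h1 w, Finset.sum_comm]
    refine Finset.sum_congr rfl fun i _ => ?_
    rw [← hAi, Finset.sum_mul]
  have hAN : ∀ i, N ≤ i → A i = 0 := by
    intro i hi
    rw [← hAi]
    refine Finset.sum_eq_zero fun w _ => ?_
    rw [coeff_eq_zero_of_natDegree_lt (lt_of_lt_of_le (hN w) hi)]
    simp
  -- the first coefficient
  have hj : ∃ i, i < J ∧ A i ≠ 0 := by
    by_contra hcon
    push Not at hcon
    have h2 : c ∈ KG g J := by
      rw [mem_KG]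
      have h3 : (fun m : ℕ => ∑ w : ι, c w * g w m) =
          fun m : ℕ => (∑ w : ι, c w * (g w m - aeval ((m : ℝ)⁻¹) (p w))) +
            ∑ i ∈ Finset.range N, A i * ((m : ℝ)⁻¹) ^ i := by
        funext m
        rw [← haev, ← Finset.sum_add_distrib]
        refine Finset.sum_congr rfl fun w _ => ?_
        ring
      rw [h3]
      refine IsBigO.add ?_ ?_
      · have h4 : (∑ w : ι, fun m : ℕ => c w * (g w m - aeval ((m : ℝ)⁻¹) (p w))) =O[atTop]
            (fun m : ℕ => ((m : ℝ) ^ J)⁻¹) := IsBigO.sum fun w _ => (hp w).const_mul_left _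
        refine h4.congr_left fun m => ?_
        rw [Finset.sum_apply]
      · have h4 : (∑ i ∈ Finset.range N, fun m : ℕ => A i * ((m : ℝ)⁻¹) ^ i) =O[atTop]
            (fun m : ℕ => ((m : ℝ) ^ J)⁻¹) := by
          refine IsBigO.sum fun i _ => ?_
          rcases lt_or_ge i J with hi | hi
          · rw [hcon i hi]
            simp only [zero_mul]
            exact isBigO_zero _ _
          · refine IsBigO.const_mul_left ?_ _
            refine IsBigO.congr_left (pow_inv_O hi) fun m => ?_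
            rw [inv_pow]
        refine h4.congr_left fun m => ?_
        rw [Finset.sum_apply]
    rw [hJ, Submodule.mem_bot] at h2
    exact hc h2
  obtain ⟨j, ⟨hjJ, hj0⟩, hjmin⟩ : ∃ j, (j < J ∧ A j ≠ 0) ∧ ∀ i < j, A i = 0 := by
    refine ⟨Nat.find hj, Nat.find_spec hj, fun i hi => ?_⟩
    have h1 := Nat.find_min hj hi
    push Not at h1
    exact h1 (hi.trans (Nat.find_spec hj).1)
  have hjN : j < N := by
    by_contra hlt
    push Not at hlt
    exact hj0 (hAN j hlt)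
  obtain ⟨a, ha⟩ : ∃ a : ℝ, a = A j := ⟨_, rfl⟩
  have ha0 : 0 < |a| := by rw [ha]; exact abs_pos.2 hj0
  have hfin : ∀ H : ℝ, (∀ w : ι, |c w| ≤ H) → ∀ m : ℕ, max m1 1 ≤ m →
      2 * (S + C2 + 1) * H ≤ |a| * m →
      |∑ w : ι, c w * g w m - a * ((m : ℝ) ^ j)⁻¹| ≤ |a| / 2 * ((m : ℝ) ^ j)⁻¹ := by
    intro H hH m hm hHm
    have hmm1 : m1 ≤ m := (le_max_left _ _).trans hm
    have hm1' : 1 ≤ m := (le_max_right _ _).trans hm
    have hmr : (1 : ℝ) ≤ m := by exact_mod_cast hm1'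
    have hm0 : (0 : ℝ) < m := by linarith
    have hH0 : 0 ≤ H := by
      obtain ⟨w, -⟩ := hc'
      exact (abs_nonneg _).trans (hH w)
    obtain ⟨x, hx⟩ : ∃ x : ℝ, x = (m : ℝ)⁻¹ := ⟨_, rfl⟩
    have hx0 : 0 < x := by rw [hx]; positivity
    have hx1 : x ≤ 1 := by rw [hx]; exact inv_le_one_of_one_le₀ hmr
    have hxp : ∀ i, ((m : ℝ) ^ i)⁻¹ = x ^ i := fun i => by rw [hx, inv_pow]
    -- part 1
    have q1 : |∑ w : ι, c w * g w m - ∑ i ∈ Finset.range N, A i * x ^ i| ≤ H * (C2 * x ^ J) := by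
      rw [← haev, ← Finset.sum_sub_distrib]
      calc _ ≤ ∑ w : ι, |c w * g w m - c w * aeval x (p w)| :=
            Finset.abs_sum_le_sum_abs _ _
        _ ≤ ∑ w : ι, H * |g w m - aeval x (p w)| := by
            refine Finset.sum_le_sum fun w _ => ?_
            rw [← mul_sub, abs_mul]
            exact mul_le_mul_of_nonneg_right (hH w) (abs_nonneg _)
        _ = H * ∑ w : ι, |g w m - aeval x (p w)| := by rw [Finset.mul_sum]
        _ ≤ _ := by
            refine mul_le_mul_of_nonneg_left ?_ hH0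
            have := hm1 m hmm1
            rw [hxp, ← hx] at this
            exact this
    -- part 2
    have q2 : |∑ i ∈ Finset.range N, A i * x ^ i - a * x ^ j| ≤ H * S * x ^ (j + 1) := by
      have e2 : ∑ i ∈ Finset.range N, A i * x ^ i - a * x ^ j =
          ∑ i ∈ (Finset.range N).erase j, A i * x ^ i := by
        rw [← Finset.add_sum_erase _ _ (Finset.mem_range.2 hjN), ha]
        ring
      rw [e2]
      calc _ ≤ ∑ i ∈ (Finset.range N).erase j, |A i * x ^ i| :=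
            Finset.abs_sum_le_sum_abs _ _
        _ ≤ ∑ i ∈ (Finset.range N).erase j, |A i| * x ^ (j + 1) := by
            refine Finset.sum_le_sum fun i hi => ?_
            rw [abs_mul, abs_of_nonneg (pow_nonneg hx0.le i)]
            rcases lt_trichotomy i j with h | h | h
            · rw [hjmin i h]
              simp
            · exact absurd h (Finset.ne_of_mem_erase hi)
            · exact mul_le_mul_of_nonneg_left (pow_le_pow_of_le_one hx0.le hx1 h) (abs_nonneg _)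
        _ ≤ ∑ i ∈ Finset.range N, |A i| * x ^ (j + 1) :=
            Finset.sum_le_sum_of_subset_of_nonneg (Finset.erase_subset _ _)
              fun i _ _ => by positivity
        _ = (∑ i ∈ Finset.range N, |A i|) * x ^ (j + 1) := by rw [Finset.sum_mul]
        _ ≤ (H * S) * x ^ (j + 1) := by
            refine mul_le_mul_of_nonneg_right ?_ (by positivity)
            calc ∑ i ∈ Finset.range N, |A i|
                ≤ ∑ i ∈ Finset.range N, ∑ w : ι, H * |(((p w).coeff i : ℚ) : ℝ)| := by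
                  refine Finset.sum_le_sum fun i _ => ?_
                  rw [← hAi]
                  refine (Finset.abs_sum_le_sum_abs _ _).trans (Finset.sum_le_sum fun w _ => ?_)
                  rw [abs_mul]
                  exact mul_le_mul_of_nonneg_right (hH w) (abs_nonneg _)
              _ = H * S := by
                  rw [Finset.sum_comm, hS, Finset.mul_sum]
                  exact Finset.sum_congr rfl fun w _ => by rw [Finset.mul_sum]
    have hHx : 2 * (S + C2 + 1) * (H * x) ≤ |a| := by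
      rw [hx, ← div_eq_mul_inv, ← mul_div_assoc, div_le_iff₀ hm0]
      exact hHm
    have hxJ : x ^ J ≤ x ^ (j + 1) := pow_le_pow_of_le_one hx0.le hx1 hjJ
    have hxj : 0 < x ^ j := pow_pos hx0 j
    have hHx0 : 0 ≤ H * x := mul_nonneg hH0 hx0.le
    rw [hxp]
    calc |∑ w : ι, c w * g w m - a * x ^ j|
        ≤ |∑ w : ι, c w * g w m - ∑ i ∈ Finset.range N, A i * x ^ i| +
          |∑ i ∈ Finset.range N, A i * x ^ i - a * x ^ j| := abs_sub_le _ _ _
      _ ≤ H * (C2 * x ^ J) + H * S * x ^ (j + 1) := add_le_add q1 q2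
      _ ≤ H * (C2 * x ^ (j + 1)) + H * S * x ^ (j + 1) := by gcongr
      _ = ((C2 + S) * (H * x)) * x ^ j := by ring
      _ ≤ (|a| / 2) * x ^ j := by
          refine mul_le_mul_of_nonneg_right ?_ hxj.le
          nlinarith
  refine ⟨j, hjJ, hj0, if 0 ≤ a then 1 else -1, by split_ifs <;> simp, fun H hH m hm hHm => ?_⟩
  rw [← ha] at hHm ⊢
  have h1 := hfin H hH m hm hHm
  have hm1' : 1 ≤ m := (le_max_right _ _).trans hm
  have hmr : (1 : ℝ) ≤ m := by exact_mod_cast hm1'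
  have hm0 : (0 : ℝ) < m := by linarith
  have hj1 : (0 : ℝ) < ((m : ℝ) ^ j)⁻¹ := by positivity
  have hJj : ((m : ℝ) ^ J)⁻¹ ≤ ((m : ℝ) ^ j)⁻¹ :=
    inv_anti₀ (by positivity) (pow_le_pow_right₀ hmr hjJ.le)
  rw [abs_le] at h1
  have h3 : |a| / 2 * ((m : ℝ) ^ J)⁻¹ ≤ |a| / 2 * ((m : ℝ) ^ j)⁻¹ := by
    gcongr
  have h4' : |a| * ((m : ℝ) ^ j)⁻¹ = |a| / 2 * ((m : ℝ) ^ j)⁻¹ + |a| / 2 * ((m : ℝ) ^ j)⁻¹ := by ring
  split_ifs with h4
  · rw [abs_of_nonneg h4] at h1 h3 h4' ⊢
    linarith [h1.1]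
  · rw [abs_of_neg (not_le.1 h4)] at h1 h3 h4' ⊢
    linarith [h1.2]

end Pool.Agent.U623.HB
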