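import Pool.Agent.U623.HB.Fam
import Pool.Agent.U623.HF.Meas

/-! # Lower bounds for coefficients in the span of numbers with a measure -/

set_option autoImplicit false

open Filter Topology Polynomial Asymptotics

namespace Pool.Agent.U623.HB

open Pool.Agent.U623.HF

/-- `f` has a definite sign and is not small -/
def LB (κ : ℝ) (E J m0 : ℕ) (Hyp : ℝ → Prop) (f : ℕ → ℝ) : Prop :=
  ∃ ε : ℝ, (ε = 1 ∨ ε = -1) ∧ ∀ h : ℝ, 1 ≤ h → Hyp h → ∀ m : ℕ, m0 ≤ m → h ^ E ≤ κ * m →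
    κ * (h ^ E)⁻¹ * ((m : ℝ) ^ J)⁻¹ ≤ ε * f m

lemma LB.mono {κ κ' : ℝ} {E E' J J' m0 m0' : ℕ} {Hyp Hyp' : ℝ → Prop} {f : ℕ → ℝ} (h : LB κ E J m0 Hyp f)
    (hκ' : 0 < κ') (hκ : κ' ≤ κ) (hE : E ≤ E') (hJ : J ≤ J') (hm : m0 ≤ m0') (hm1 : 1 ≤ m0')
    (hH : ∀ x, Hyp' x → Hyp x) : LB κ' E' J' m0' Hyp' f := by
  obtain ⟨ε, hε, h1⟩ := h
  refine ⟨ε, hε, fun x hx hyp m hmm hxm => ?_⟩
  have m1 : (1 : ℝ) ≤ m := by exact_mod_cast hm1.trans hmm
  have m0r : (0 : ℝ) < m := by linarith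
  have e1 : x ^ E ≤ x ^ E' := pow_le_pow_right₀ hx hE
  have e2 : x ^ E ≤ κ * m := e1.trans (hxm.trans (mul_le_mul_of_nonneg_right hκ m0r.le))
  refine le_trans ?_ (h1 x hx (hH x hyp) m (hm.trans hmm) e2)
  have x0 : 0 < x := by linarith
  refine mul_le_mul (mul_le_mul hκ (inv_anti₀ (by positivity) e1) (by positivity) (by linarith))
    (inv_anti₀ (by positivity) (pow_le_pow_right₀ m1 hJ)) (by positivity) ?_
  have : 0 < κ := by linarith
  positivity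

theorem lowerM {ι ι' : Type} [Fintype ι] [Fintype ι'] {g : ι → ℕ → ℝ} (hI : Ind g) (hEx : Exn g)
    {θ : ι' → ℝ} (hθ : LMe θ) : ∃ κ : ℝ, 0 < κ ∧ ∃ E J m0 : ℕ, ∀ z : ι → ι' → ℤ, z ≠ 0 →
      LB κ E J m0 (fun h => ∀ i l, |(z i l : ℝ)| ≤ h) (fun m => ∑ i, (∑ l, (z i l : ℝ) * θ l) * g i m) := by
  classical
  obtain ⟨q, K, J, m0, hK, hmain⟩ := lowerG hI hEx
  obtain ⟨κ0, c0, hκ0, hc0, hm⟩ := hθ
  -- common denominator
  obtain ⟨D, hD1, z', hz'⟩ : ∃ D : ℕ, 1 ≤ D ∧ ∃ z' : ℕ → ι → ℤ, ∀ j < J, ∀ i, (D : ℚ) * q j i = z' j i := by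
    refine ⟨∏ j ∈ Finset.range J, ∏ i : ι, (q j i).den, ?_, ?_⟩
    · exact Nat.one_le_iff_ne_zero.2 (Finset.prod_ne_zero_iff.2 fun w _ =>
        Finset.prod_ne_zero_iff.2 fun i _ => Rat.den_nz _)
    · have hex : ∀ j i, ∃ y : ℤ, j < J →
          ((∏ j ∈ Finset.range J, ∏ i : ι, (q j i).den : ℕ) : ℚ) * q j i = y := by
        intro j i
        by_cases hj : j < J
        · have h1 : (q j i).den ∣ ∏ j ∈ Finset.range J, ∏ i : ι, (q j i).den :=
            (Finset.dvd_prod_of_mem (fun i => (q j i).den) (Finset.mem_univ i)).trans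
              (Finset.dvd_prod_of_mem (fun j => ∏ i : ι, (q j i).den) (Finset.mem_range.2 hj))
          obtain ⟨k, hk⟩ := h1
          refine ⟨k * (q j i).num, fun _ => ?_⟩
          rw [hk]
          push_cast
          have h2 : ((q j i).den : ℚ) * q j i = (q j i).num := by
            rw [mul_comm]
            exact Rat.mul_den_eq_num _
          calc ((q j i).den : ℚ) * (k : ℚ) * q j i = k * (((q j i).den : ℚ) * q j i) := by ring
            _ = _ := by rw [h2]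
        · exact ⟨0, fun h => absurd h hj⟩
      choose y hy using hex
      exact ⟨y, fun j hj i => hy j i hj⟩
  obtain ⟨B, hB⟩ : ∃ B : ℝ, B = 1 + ∑ j ∈ Finset.range J, ∑ i : ι, |(z' j i : ℝ)| := ⟨_, rfl⟩
  have hB1 : 1 ≤ B := by
    rw [hB]
    have : 0 ≤ ∑ j ∈ Finset.range J, ∑ i : ι, |(z' j i : ℝ)| :=
      Finset.sum_nonneg fun _ _ => Finset.sum_nonneg fun _ _ => abs_nonneg _
    linarith
  obtain ⟨Θ, hΘ⟩ : ∃ Θ : ℝ, Θ = 1 + ∑ l, |θ l| := ⟨_, rfl⟩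
  have hΘ1 : 1 ≤ Θ := by
    rw [hΘ]
    have : 0 ≤ ∑ l, |θ l| := Finset.sum_nonneg fun _ _ => abs_nonneg _
    linarith
  have hD0 : (0 : ℝ) < D := by exact_mod_cast hD1
  have hBκ : 0 < B ^ κ0 := Real.rpow_pos_of_pos (by linarith) _
  obtain ⟨E, hE⟩ := exists_nat_ge (1 + κ0)
  obtain ⟨κ, hκ⟩ : ∃ κ : ℝ, κ = min (c0 / (K * Θ * D * B ^ κ0)) (c0 / (2 * D * B ^ κ0)) := ⟨_, rfl⟩
  have hκp : 0 < κ := by rw [hκ]; exact lt_min (by positivity) (by positivity)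
  refine ⟨κ, hκp, E, J, m0, fun z hz => ?_⟩
  obtain ⟨c, hc⟩ : ∃ c : ι → ℝ, c = fun i => ∑ l, (z i l : ℝ) * θ l := ⟨_, rfl⟩
  have hci : ∀ i, c i = ∑ l, (z i l : ℝ) * θ l := fun i => by rw [hc]
  have hcne : c ≠ 0 := by
    intro h0
    apply hz
    funext i
    by_contra hzi
    obtain ⟨M, hM⟩ : ∃ M : ℝ, ∀ l, |(z i l : ℝ)| ≤ M :=
      ⟨∑ l, |(z i l : ℝ)|, fun l => Finset.single_le_sum (f := fun l => |(z i l : ℝ)|)
        (fun _ _ => abs_nonneg _) (Finset.mem_univ l)⟩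
    have h1 := hm (z i) hzi (max M 1) (le_max_right _ _) fun l => (hM l).trans (le_max_left _ _)
    rw [← hci, h0, Pi.zero_apply, abs_zero, mul_zero] at h1
    linarith
  obtain ⟨j, hjJ, hj0, ε, hε, hfin⟩ := hmain c hcne
  obtain ⟨A, hA⟩ : ∃ A : ℝ, A = ∑ i : ι, c i * (q j i : ℝ) := ⟨_, rfl⟩
  rw [← hA] at hj0 hfin
  refine ⟨ε, hε, fun h hh hzh m hm0 hhm => ?_⟩
  have hh0 : 0 < h := by linarith
  obtain ⟨Z, hZ⟩ : ∃ Z : ι' → ℤ, Z = fun l => ∑ i : ι, z i l * z' j i := ⟨_, rfl⟩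
  have hZA : ∑ l, (Z l : ℝ) * θ l = D * A := by
    rw [hA, Finset.mul_sum]
    have h1 : ∀ l, (Z l : ℝ) * θ l = ∑ i : ι, (z i l : ℝ) * (z' j i : ℝ) * θ l := by
      intro l
      rw [hZ]
      push_cast
      rw [Finset.sum_mul]
    simp only [h1]
    rw [Finset.sum_comm]
    refine Finset.sum_congr rfl fun i _ => ?_
    have h2 : (D : ℝ) * (q j i : ℝ) = z' j i := by exact_mod_cast hz' j hjJ i
    rw [hci]
    calc ∑ l, (z i l : ℝ) * (z' j i : ℝ) * θ l = (z' j i : ℝ) * ∑ l, (z i l : ℝ) * θ l := by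
          rw [Finset.mul_sum]
          exact Finset.sum_congr rfl fun l _ => by ring
      _ = _ := by rw [← h2]; ring
  have hZ0 : Z ≠ 0 := by
    intro h0
    rw [h0] at hZA
    simp only [Pi.zero_apply, Int.cast_zero, zero_mul, Finset.sum_const_zero] at hZA
    rcases mul_eq_zero.1 hZA.symm with h1 | h1
    · exact hD0.ne' h1
    · exact hj0 h1
  have hZB : ∀ l, |(Z l : ℝ)| ≤ h * B := by
    intro l
    rw [hZ]
    push_cast
    calc |∑ i : ι, (z i l : ℝ) * (z' j i : ℝ)| ≤ ∑ i : ι, |(z i l : ℝ) * (z' j i : ℝ)| :=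
          Finset.abs_sum_le_sum_abs _ _
      _ ≤ ∑ i : ι, h * |(z' j i : ℝ)| := by
          refine Finset.sum_le_sum fun i _ => ?_
          rw [abs_mul]
          exact mul_le_mul_of_nonneg_right (hzh i l) (abs_nonneg _)
      _ = h * ∑ i : ι, |(z' j i : ℝ)| := by rw [Finset.mul_sum]
      _ ≤ h * B := by
          refine mul_le_mul_of_nonneg_left ?_ hh0.le
          rw [hB]
          have := Finset.single_le_sum (f := fun j => ∑ i : ι, |(z' j i : ℝ)|)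
            (fun _ _ => Finset.sum_nonneg fun _ _ => abs_nonneg _) (Finset.mem_range.2 hjJ)
          linarith
  have hA1 : c0 ≤ (h * B) ^ κ0 * (D * |A|) := by
    have h1 := hm Z hZ0 (h * B) (by nlinarith) hZB
    rw [hZA, abs_mul, abs_of_pos hD0] at h1
    exact h1
  rw [Real.mul_rpow hh0.le (by linarith)] at hA1
  have hhκ : 0 < h ^ κ0 := Real.rpow_pos_of_pos hh0 _
  have hhE0 : h ^ (1 + κ0) = h * h ^ κ0 := by rw [Real.rpow_add hh0, Real.rpow_one]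
  have hhE : h * h ^ κ0 ≤ h ^ E := by
    rw [← hhE0, ← Real.rpow_natCast]
    exact Real.rpow_le_rpow_of_exponent_le hh hE
  have hmr0 : (0 : ℝ) < m := by
    have h1 : 0 < κ * (m : ℝ) := lt_of_lt_of_le (by positivity) hhm
    by_contra hcon
    have : (m : ℝ) = 0 := le_antisymm (not_lt.1 hcon) m.cast_nonneg
    rw [this, mul_zero] at h1
    exact lt_irrefl _ h1
  have hb1 : K * (h * Θ) ≤ |A| * m := by
    have h1 : h * h ^ κ0 ≤ c0 / (K * Θ * D * B ^ κ0) * m := by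
      refine hhE.trans (hhm.trans (mul_le_mul_of_nonneg_right ?_ hmr0.le))
      rw [hκ]
      exact min_le_left _ _
    rw [div_mul_eq_mul_div, le_div_iff₀ (by positivity)] at h1
    have h2 : c0 * m ≤ h ^ κ0 * B ^ κ0 * (D * |A|) * m :=
      mul_le_mul_of_nonneg_right hA1 hmr0.le
    have h3 : (h ^ κ0 * B ^ κ0 * D) * (K * (h * Θ)) ≤ (h ^ κ0 * B ^ κ0 * D) * (|A| * m) := by
      calc (h ^ κ0 * B ^ κ0 * D) * (K * (h * Θ)) = h * h ^ κ0 * (K * Θ * D * B ^ κ0) := by ring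
        _ ≤ c0 * m := h1
        _ ≤ _ := h2
        _ = _ := by ring
    exact le_of_mul_le_mul_left h3 (by positivity)
  have hlow := hfin (h * Θ) (by
    intro i
    rw [hci]
    calc |∑ l, (z i l : ℝ) * θ l| ≤ ∑ l, |(z i l : ℝ) * θ l| := Finset.abs_sum_le_sum_abs _ _
      _ ≤ ∑ l, h * |θ l| := by
          refine Finset.sum_le_sum fun l _ => ?_
          rw [abs_mul]
          exact mul_le_mul_of_nonneg_right (hzh i l) (abs_nonneg _)
      _ = h * ∑ l, |θ l| := by rw [Finset.mul_sum]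
      _ ≤ h * Θ := by
          refine mul_le_mul_of_nonneg_left ?_ hh0.le
          rw [hΘ]
          linarith) m hm0 hb1
  have e1 : ∑ i, (∑ l, (z i l : ℝ) * θ l) * g i m = ∑ i, c i * g i m :=
    Finset.sum_congr rfl fun i _ => by rw [hci]
  beta_reduce
  rw [e1]
  refine le_trans (mul_le_mul_of_nonneg_right ?_ (by positivity)) hlow
  have h5 : κ ≤ c0 / (2 * D * B ^ κ0) := by rw [hκ]; exact min_le_right _ _
  have h6 : c0 / (2 * D * B ^ κ0) ≤ |A| / 2 * h ^ κ0 := by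
    rw [div_le_iff₀ (by positivity)]
    calc c0 ≤ _ := hA1
      _ = _ := by ring
  have h7 : (h ^ E)⁻¹ ≤ (h ^ κ0)⁻¹ := by
    apply inv_anti₀ hhκ
    refine le_trans ?_ hhE
    nlinarith
  calc κ * (h ^ E)⁻¹ ≤ (|A| / 2 * h ^ κ0) * (h ^ κ0)⁻¹ :=
        mul_le_mul (h5.trans h6) h7 (by positivity) (by positivity)
    _ = |A| / 2 := by field_simp

end Pool.Agent.U623.HB
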