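import Pool.Agent.U623.HB.Final

/-! # Real coefficients -/

set_option autoImplicit false

open Filter Topology Polynomial Asymptotics

namespace Pool.Agent.U623.HB

open Pool.Agent.U623.HF
open Pool.Agent.H447R2.MZ (H H_cons H_cons_succ H_nil H_nonneg H_mono val Adm H_le_val)

/-- `∑_k ∑_w c_{k,w} T_w(m) m^(-e_k)` -/
noncomputable def SR (W : Finset (List ℕ)) (r : ℕ) (e : ℕ → ℕ) (c : ℕ → List ℕ → ℝ) (m : ℕ) : ℝ :=
  ∑ k ∈ Finset.range (r + 1), ∑ w ∈ W, c k w * (T w m * ((m : ℝ) ^ e k)⁻¹)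

lemma min_pos {ι : Type} [Fintype ι] (f : ι → ℝ) (hf : ∀ i, 0 < f i) : ∃ κ : ℝ, 0 < κ ∧ ∀ i, κ ≤ f i := by
  have h0 : 0 ≤ ∑ i, (f i)⁻¹ := Finset.sum_nonneg fun i _ => (inv_pos.2 (hf i)).le
  refine ⟨(1 + ∑ i, (f i)⁻¹)⁻¹, by positivity, fun i => ?_⟩
  rw [inv_le_comm₀ (by positivity) (hf i)]
  have := Finset.single_le_sum (f := fun i => (f i)⁻¹) (fun i _ => (inv_pos.2 (hf i)).le) (Finset.mem_univ i)
  beta_reduce at this
  linarith

lemma windowR (W : Finset (List ℕ)) (hW : ∀ w ∈ W, RA w) (I r : ℕ) (c : ℕ → List ℕ → ℝ)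
    (hc : ∃ k ≤ r, ∃ w ∈ W, c k w ≠ 0) : ∃ κ : ℝ, 0 < κ ∧ ∃ J m0 : ℕ, ∀ e : ℕ → ℕ,
      (∀ i j, i < j → j ≤ r → e i < e j) → e r ≤ I → ∃ ε : ℝ, (ε = 1 ∨ ε = -1) ∧
        ∀ m : ℕ, m0 ≤ m → κ * ((m : ℝ) ^ J)⁻¹ ≤ ε * SR W r e c m := by
  classical
  obtain ⟨q, K, J, m0, hK, h⟩ := lowerG (fam_ind W hW I) (fam_exn W hW I)
  obtain ⟨cp, hcp⟩ : ∃ cp : (Fin (r + 1) → Fin (I + 1)) → W × Fin (I + 1) → ℝ, cp = fun p x =>
      ∑ k : Fin (r + 1), if p k = x.2 then c k x.1.1 else 0 := ⟨_, rfl⟩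
  have hex : ∀ p : Fin (r + 1) → Fin (I + 1), ∃ (κ : ℝ) (n : ℕ), 0 < κ ∧ (cp p ≠ 0 → ∃ ε : ℝ, (ε = 1 ∨ ε = -1) ∧
      ∀ m : ℕ, n ≤ m → κ * ((m : ℝ) ^ J)⁻¹ ≤ ε * ∑ x, cp p x * fam W I x m) := by
    intro p
    by_cases hp : cp p ≠ 0
    · obtain ⟨j, -, hj0, ε, hε, h1⟩ := h (cp p) hp
      obtain ⟨A, hA⟩ : ∃ A : ℝ, A = |∑ x, cp p x * (q j x : ℝ)| := ⟨_, rfl⟩
      have hA0 : 0 < A := by rw [hA]; exact abs_pos.2 hj0
      rw [← hA] at h1
      obtain ⟨n, hn⟩ := exists_nat_ge (K * (∑ x, |cp p x|) / A)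
      refine ⟨A / 2, max n m0, by positivity, fun _ => ⟨ε, hε, fun m hm => ?_⟩⟩
      refine h1 (∑ x, |cp p x|) (fun x => Finset.single_le_sum (f := fun x => |cp p x|)
        (fun _ _ => abs_nonneg _) (Finset.mem_univ x)) m ((le_max_right _ _).trans hm) ?_
      rw [div_le_iff₀ hA0] at hn
      have h2 : (n : ℝ) ≤ m := by exact_mod_cast (le_max_left _ _).trans hm
      calc _ ≤ (n : ℝ) * A := hn
        _ ≤ m * A := mul_le_mul_of_nonneg_right h2 hA0.le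
        _ = _ := mul_comm _ _
    · exact ⟨1, 0, one_pos, fun h => absurd h hp⟩
  choose κp n hκp hn using hex
  obtain ⟨κ, hκ0, hκ⟩ := min_pos κp hκp
  refine ⟨κ, hκ0, J, max (Finset.univ.sup n) 1, fun e he heI => ?_⟩
  have hle : ∀ k ≤ r, e k ≤ I := fun k hk => by
    rcases Nat.lt_or_ge k r with h1 | h1
    · exact (he k r h1 le_rfl).le.trans heI
    · rw [le_antisymm hk h1]
      exact heI
  have hinj : ∀ i ≤ r, ∀ j ≤ r, e i = e j → i = j := by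
    intro i hi j hj hij
    rcases lt_trichotomy i j with h1 | h1 | h1
    · exact absurd hij (he i j h1 hj).ne
    · exact h1
    · exact absurd hij.symm (he j i h1 hi).ne
  obtain ⟨p, hp⟩ : ∃ p : Fin (r + 1) → Fin (I + 1), ∀ k, ((p k : Fin (I + 1)) : ℕ) = e k :=
    ⟨fun k => ⟨e k, Nat.lt_succ_of_le (hle k (Nat.lt_succ_iff.1 k.2))⟩, fun k => rfl⟩
  have hcpne : cp p ≠ 0 := by
    obtain ⟨k, hk, w, hw, hne⟩ := hc
    intro h0
    apply hne
    have h1 := congrFun h0 (⟨w, hw⟩, p ⟨k, Nat.lt_succ_of_le hk⟩)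
    rw [hcp] at h1
    simp only [Pi.zero_apply] at h1
    rw [Finset.sum_eq_single ⟨k, Nat.lt_succ_of_le hk⟩] at h1
    · rw [if_pos rfl] at h1
      exact h1
    · intro j _ hj
      rw [if_neg]
      intro h2
      apply hj
      have h3 : e j = e k := by
        have := congrArg (fun x : Fin (I + 1) => (x : ℕ)) h2
        simp only [hp] at this
        exact this
      exact Fin.ext (hinj j (Nat.lt_succ_iff.1 j.2) k hk h3)
    · intro h2
      exact absurd (Finset.mem_univ _) h2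
  obtain ⟨ε, hε, h1⟩ := hn p hcpne
  refine ⟨ε, hε, fun m hm => ?_⟩
  have hm1 : 1 ≤ m := (le_max_right _ _).trans hm
  have h2 := h1 m ((Finset.le_sup (f := n) (Finset.mem_univ p)).trans ((le_max_left _ _).trans hm))
  have h3 : ∑ x, cp p x * fam W I x m = SR W r e c m := by
    unfold SR
    rw [Fintype.sum_prod_type, hcp]
    simp only [Finset.sum_mul]
    rw [Finset.sum_range]
    rw [Finset.sum_congr rfl fun (w : W) _ => Finset.sum_comm, Finset.sum_comm]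
    refine Finset.sum_congr rfl fun k _ => ?_
    rw [← Finset.sum_coe_sort W]
    refine Finset.sum_congr rfl fun w _ => ?_
    rw [Finset.sum_eq_single (p k)]
    · rw [if_pos rfl]
      unfold fam
      rw [hp]
    · intro i _ hi
      rw [if_neg (fun h => hi h.symm), zero_mul]
    · intro h4
      exact absurd (Finset.mem_univ _) h4
  rw [h3] at h2
  exact (mul_le_mul_of_nonneg_right (hκ p) (by positivity)).trans h2

theorem stageR (W : Finset (List ℕ)) (hW : ∀ w ∈ W, RA w) (c : ℕ → List ℕ → ℝ)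
    (hc : ∃ w ∈ W, c 0 w ≠ 0) (r : ℕ) : ∃ κ : ℝ, 0 < κ ∧ ∃ J m0 : ℕ, ∀ e : ℕ → ℕ, e 0 = 0 →
      (∀ i j, i < j → j ≤ r → e i < e j) → ∃ ε : ℝ, (ε = 1 ∨ ε = -1) ∧
        ∀ m : ℕ, m0 ≤ m → κ * ((m : ℝ) ^ J)⁻¹ ≤ ε * SR W r e c m := by
  classical
  induction r with
  | zero =>
    obtain ⟨w, hw, hne⟩ := hc
    obtain ⟨κ, hκ, J, m0, h⟩ := windowR W hW 0 0 c ⟨0, le_rfl, w, hw, hne⟩
    exact ⟨κ, hκ, J, m0, fun e he0 he => h e he (by omega)⟩
  | succ R ih =>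
    obtain ⟨κ1, hκ1, J1, m1, h1⟩ := ih
    obtain ⟨κ2, hκ2, J2, m2, h2⟩ := windowR W hW (J1 + 1) (R + 1) c (by
      obtain ⟨w, hw, hne⟩ := hc
      exact ⟨0, Nat.zero_le _, w, hw, hne⟩)
    have hTb : ∀ w : List ℕ, ∃ C : ℝ, 0 ≤ C ∧ (w ∈ W → ∀ m, T w m ≤ C) := fun w => by
      by_cases hw : w ∈ W
      · obtain ⟨C, hC, h⟩ := (Tb w (hW w hw)).2.1
        exact ⟨C, hC, fun _ => h⟩
      · exact ⟨0, le_rfl, fun h => absurd h hw⟩
    choose C hC hT using hTb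
    obtain ⟨C3, hC3⟩ : ∃ C3 : ℝ, C3 = ∑ w ∈ W, |c (R + 1) w| * C w := ⟨_, rfl⟩
    have hC30 : 0 ≤ C3 := by
      rw [hC3]
      exact Finset.sum_nonneg fun w _ => mul_nonneg (abs_nonneg _) (hC w)
    obtain ⟨n3, hn3⟩ := exists_nat_ge (2 * C3 / κ1)
    rw [div_le_iff₀ hκ1] at hn3
    obtain ⟨κ, hκ⟩ : ∃ κ : ℝ, κ = min (κ1 / 2) κ2 := ⟨_, rfl⟩
    have hκ0 : 0 < κ := by
      rw [hκ]
      exact lt_min (by positivity) hκ2
    have k1 : κ ≤ κ1 / 2 := by rw [hκ]; exact min_le_left _ _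
    have k2 : κ ≤ κ2 := by rw [hκ]; exact min_le_right _ _
    refine ⟨κ, hκ0, max J1 J2, max (max m1 m2) (max n3 1), fun e he0 he => ?_⟩
    rcases Nat.lt_or_ge (e (R + 1)) (J1 + 2) with heJ | heJ
    · obtain ⟨ε, hε, h3⟩ := h2 e he (by omega)
      refine ⟨ε, hε, fun m hm => ?_⟩
      have m1r : (1 : ℝ) ≤ m := by
        exact_mod_cast ((le_max_right _ _).trans (le_max_right _ _)).trans hm
      refine le_trans ?_ (h3 m (((le_max_right _ _).trans (le_max_left _ _)).trans hm))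
      exact mul_le_mul k2 (inv_anti₀ (by positivity) (pow_le_pow_right₀ m1r (le_max_right _ _)))
        (by positivity) hκ2.le
    obtain ⟨ε, hε, h3⟩ := h1 e he0 (fun i j hij hj => he i j hij (by omega))
    refine ⟨ε, hε, fun m hm => ?_⟩
    have m1r : (1 : ℝ) ≤ m := by
      exact_mod_cast ((le_max_right _ _).trans (le_max_right _ _)).trans hm
    have m0r : (0 : ℝ) < m := by linarith
    have h4 := h3 m (((le_max_left _ _).trans (le_max_left _ _)).trans hm)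
    obtain ⟨F, hF⟩ : ∃ F : ℝ, F = ∑ w ∈ W, c (R + 1) w * (T w m * ((m : ℝ) ^ e (R + 1))⁻¹) := ⟨_, rfl⟩
    have hSM : SR W (R + 1) e c m = SR W R e c m + F := by
      unfold SR
      rw [Finset.sum_range_succ, hF]
    have hFb : |F| ≤ C3 * ((m : ℝ) ^ (J1 + 1))⁻¹ := by
      have h5 : ((m : ℝ) ^ e (R + 1))⁻¹ ≤ ((m : ℝ) ^ (J1 + 1))⁻¹ :=
        inv_anti₀ (by positivity) (pow_le_pow_right₀ m1r (by omega))
      calc |F| ≤ ∑ w ∈ W, |c (R + 1) w * (T w m * ((m : ℝ) ^ e (R + 1))⁻¹)| := by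
            rw [hF]
            exact Finset.abs_sum_le_sum_abs _ _
        _ ≤ ∑ w ∈ W, |c (R + 1) w| * C w * ((m : ℝ) ^ (J1 + 1))⁻¹ := by
            refine Finset.sum_le_sum fun w hw => ?_
            have t0 := T_nonneg (hW _ hw) m
            rw [abs_mul, mul_assoc]
            refine mul_le_mul_of_nonneg_left ?_ (abs_nonneg _)
            rw [abs_of_nonneg (by positivity)]
            exact mul_le_mul (hT w hw m) h5 (by positivity) (hC w)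
        _ = _ := by rw [hC3, Finset.sum_mul]
    have h6 : C3 * ((m : ℝ) ^ (J1 + 1))⁻¹ ≤ κ1 / 2 * ((m : ℝ) ^ J1)⁻¹ := by
      have h7 : (n3 : ℝ) ≤ m := by
        exact_mod_cast ((le_max_left _ _).trans (le_max_right _ _)).trans hm
      have h8 : C3 ≤ κ1 / 2 * m := by nlinarith
      calc C3 * ((m : ℝ) ^ (J1 + 1))⁻¹ ≤ (κ1 / 2 * m) * ((m : ℝ) ^ (J1 + 1))⁻¹ :=
            mul_le_mul_of_nonneg_right h8 (by positivity)
        _ = _ := by
            rw [pow_succ]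
            field_simp
    have h10 : κ * ((m : ℝ) ^ (max J1 J2))⁻¹ ≤ κ1 / 2 * ((m : ℝ) ^ J1)⁻¹ :=
      mul_le_mul k1 (inv_anti₀ (by positivity) (pow_le_pow_right₀ m1r (le_max_left _ _)))
        (by positivity) (by positivity)
    have h11 : κ1 * ((m : ℝ) ^ J1)⁻¹ = κ1 / 2 * ((m : ℝ) ^ J1)⁻¹ + κ1 / 2 * ((m : ℝ) ^ J1)⁻¹ := by ring
    have h12 : -|F| ≤ ε * F := by
      rcases hε with rfl | rfl
      · rw [one_mul]; exact neg_abs_le F
      · rw [neg_one_mul]; exact neg_le_neg (le_abs_self F)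
    rw [hSM, mul_add]
    linarith

end Pool.Agent.U623.HB
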