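import Pool.Agent.U623.HB.Mes

/-! # Several exponents -/

set_option autoImplicit false

open Filter Topology Polynomial Asymptotics

namespace Pool.Agent.U623.HB

open Pool.Agent.U623.HF

/-- `∑_k ∑_w c_{k,w} T_w(m) m^(-e_k)` -/
noncomputable def SM {ι' : Type} [Fintype ι'] (θ : ι' → ℝ) (W : Finset (List ℕ)) (r : ℕ) (e : ℕ → ℕ)
    (z : ℕ → W → ι' → ℤ) (m : ℕ) : ℝ :=
  ∑ k ∈ Finset.range (r + 1), ∑ w : W, (∑ l, (z k w l : ℝ) * θ l) * (T w.1 m * ((m : ℝ) ^ e k)⁻¹)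

/-- exponents in a window -/
lemma window (W : Finset (List ℕ)) (hW : ∀ w ∈ W, RA w) {ι' : Type} [Fintype ι'] {θ : ι' → ℝ}
    (hθ : LMe θ) (I : ℕ) : ∃ κ : ℝ, 0 < κ ∧ ∃ E J m0 : ℕ, ∀ (r : ℕ) (e : ℕ → ℕ),
      (∀ i j, i < j → j ≤ r → e i < e j) → e r ≤ I → ∀ z : ℕ → W → ι' → ℤ,
      (∃ k ≤ r, ∃ w l, z k w l ≠ 0) →
      LB κ E J m0 (fun h => ∀ k ≤ r, ∀ w l, |(z k w l : ℝ)| ≤ h) (SM θ W r e z) := by
  classical
  obtain ⟨κ, hκ, E, J, m0, h⟩ := lowerM (fam_ind W hW I) (fam_exn W hW I) hθ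
  refine ⟨κ, hκ, E, J, max m0 1, fun r e he heI z hz => ?_⟩
  have hle : ∀ k ≤ r, e k ≤ I := fun k hk => by
    rcases Nat.lt_or_ge k r with h1 | h1
    · exact (he k r h1 le_rfl).le.trans heI
    · rw [le_antisymm hk h1]
      exact heI
  have hinj : ∀ i ≤ r, ∀ j ≤ r, e i = e j → i = j := by
    intro i hi j hj hij
    rcases lt_trichotomy i j with h1 | h1 | h1
    · exact absurd hij (he i j h1 hj).ne
    · exact h1
    · exact absurd hij.symm (he j i h1 hi).ne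
  obtain ⟨Z, hZ⟩ : ∃ Z : W × Fin (I + 1) → ι' → ℤ, Z = fun p l =>
      ∑ k ∈ Finset.range (r + 1), if e k = (p.2 : ℕ) then z k p.1 l else 0 := ⟨_, rfl⟩
  have hZk : ∀ k (hk : k ≤ r) w l, Z (w, ⟨e k, Nat.lt_succ_of_le (hle k hk)⟩) l = z k w l := by
    intro k hk w l
    rw [hZ]
    simp only
    rw [Finset.sum_eq_single k]
    · rw [if_pos rfl]
    · intro j hj hjk
      rw [if_neg]
      intro h2
      exact hjk (hinj j (Nat.lt_succ_iff.1 (Finset.mem_range.1 hj)) k hk h2)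
    · intro h2
      exact absurd (Finset.mem_range.2 (Nat.lt_succ_of_le hk)) h2
  have hZ0 : Z ≠ 0 := by
    obtain ⟨k, hk, w, l, hne⟩ := hz
    intro h0
    apply hne
    rw [← hZk k hk w l, h0]
    rfl
  obtain ⟨ε, hε, h1⟩ := h Z hZ0
  refine ⟨ε, hε, fun x hx hyp m hm hxm => ?_⟩
  have hm1 : 1 ≤ m := (le_max_right _ _).trans hm
  have h2 := h1 x hx (by
    intro p l
    by_cases hp : ∃ k ≤ r, e k = (p.2 : ℕ)
    · obtain ⟨k, hk, hkp⟩ := hp
      have : p = (p.1, ⟨e k, Nat.lt_succ_of_le (hle k hk)⟩) := by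
        ext
        · rfl
        · exact hkp.symm
      rw [this, hZk k hk]
      exact hyp k hk _ l
    · have h3 : Z p l = 0 := by
        rw [hZ]
        refine Finset.sum_eq_zero fun k hk => ?_
        rw [if_neg]
        intro h4
        exact hp ⟨k, Nat.lt_succ_iff.1 (Finset.mem_range.1 hk), h4⟩
      rw [h3, Int.cast_zero, abs_zero]
      linarith) m ((le_max_left _ _).trans hm) hxm
  refine h2.trans (le_of_eq ?_)
  congr 1
  -- the two sums
  unfold SM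
  beta_reduce
  rw [Fintype.sum_prod_type, Finset.sum_comm]
  have h3 : ∀ (i : Fin (I + 1)) (w : W), (∑ l, (Z (w, i) l : ℝ) * θ l) * fam W I (w, i) m =
      ∑ k ∈ Finset.range (r + 1), if e k = (i : ℕ) then
        (∑ l, (z k w l : ℝ) * θ l) * (T w.1 m * ((m : ℝ) ^ (i : ℕ))⁻¹) else 0 := by
    intro i w
    have h4 : ∀ l, (Z (w, i) l : ℝ) * θ l =
        ∑ k ∈ Finset.range (r + 1), if e k = (i : ℕ) then (z k w l : ℝ) * θ l else 0 := by
      intro l
      rw [hZ]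
      push_cast
      rw [Finset.sum_mul]
      refine Finset.sum_congr rfl fun k _ => ?_
      split_ifs <;> simp
    simp only [h4]
    rw [Finset.sum_comm, Finset.sum_mul]
    refine Finset.sum_congr rfl fun k _ => ?_
    split_ifs with h5
    · rfl
    · simp
  calc ∑ i : Fin (I + 1), ∑ w : W, (∑ l, (Z (w, i) l : ℝ) * θ l) * fam W I (w, i) m
      = ∑ i : Fin (I + 1), ∑ w : W, ∑ k ∈ Finset.range (r + 1), (if e k = (i : ℕ) then
        (∑ l, (z k w l : ℝ) * θ l) * (T w.1 m * ((m : ℝ) ^ (i : ℕ))⁻¹) else 0) :=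
        Finset.sum_congr rfl fun i _ => Finset.sum_congr rfl fun w _ => h3 i w
    _ = ∑ i : Fin (I + 1), ∑ k ∈ Finset.range (r + 1), ∑ w : W, (if e k = (i : ℕ) then
        (∑ l, (z k w l : ℝ) * θ l) * (T w.1 m * ((m : ℝ) ^ (i : ℕ))⁻¹) else 0) :=
        Finset.sum_congr rfl fun i _ => Finset.sum_comm
    _ = ∑ k ∈ Finset.range (r + 1), ∑ i : Fin (I + 1), ∑ w : W, (if e k = (i : ℕ) then
        (∑ l, (z k w l : ℝ) * θ l) * (T w.1 m * ((m : ℝ) ^ (i : ℕ))⁻¹) else 0) := Finset.sum_comm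
    _ = _ := by
        refine Finset.sum_congr rfl fun k hk => ?_
        have hk' : k ≤ r := Nat.lt_succ_iff.1 (Finset.mem_range.1 hk)
        rw [Finset.sum_eq_single ⟨e k, Nat.lt_succ_of_le (hle k hk')⟩]
        · refine Finset.sum_congr rfl fun w _ => ?_
          rw [if_pos rfl]
        · intro i _ hi
          refine Finset.sum_eq_zero fun w _ => ?_
          rw [if_neg]
          intro h6
          exact hi (Fin.ext h6.symm)
        · intro h6
          exact absurd (Finset.mem_univ _) h6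

theorem stage (W : Finset (List ℕ)) (hW : ∀ w ∈ W, RA w) {ι' : Type} [Fintype ι'] {θ : ι' → ℝ}
    (hθ : LMe θ) (R : ℕ) : ∃ κ : ℝ, 0 < κ ∧ ∃ E J m0 : ℕ, ∀ (r : ℕ) (e : ℕ → ℕ), r ≤ R → e 0 = 0 →
      (∀ i j, i < j → j ≤ r → e i < e j) → ∀ z : ℕ → W → ι' → ℤ,
      (∃ w l, z 0 w l ≠ 0) →
      LB κ E J m0 (fun h => ∀ k ≤ r, ∀ w l, |(z k w l : ℝ)| ≤ h) (SM θ W r e z) := by
  classical
  induction R with
  | zero =>
    obtain ⟨κ, hκ, E, J, m0, h⟩ := window W hW hθ 0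
    refine ⟨κ, hκ, E, J, m0, fun r e hr he0 he z hz => ?_⟩
    have hr0 : r = 0 := by omega
    subst hr0
    exact h 0 e he (by omega) z (by
      obtain ⟨w, l, h1⟩ := hz
      exact ⟨0, le_rfl, w, l, h1⟩)
  | succ R ih =>
    obtain ⟨κ1, hκ1, E1, J1, m1, h1⟩ := ih
    obtain ⟨κ2, hκ2, E2, J2, m2, h2⟩ := window W hW hθ (J1 + 1)
    -- a bound for the terms
    have hTb : ∀ w : W, ∃ C : ℝ, 0 ≤ C ∧ ∀ m, T w.1 m ≤ C := fun w => (Tb w.1 (hW _ w.2)).2.1
    choose C hC hT using hTb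
    obtain ⟨C3, hC3⟩ : ∃ C3 : ℝ, C3 = 1 + ∑ w : W, (∑ l, |θ l|) * C w := ⟨_, rfl⟩
    have hΘ0 : 0 ≤ ∑ l, |θ l| := Finset.sum_nonneg fun _ _ => abs_nonneg _
    have hC30 : 0 < C3 := by
      rw [hC3]
      have : 0 ≤ ∑ w : W, (∑ l, |θ l|) * C w := Finset.sum_nonneg fun w _ => mul_nonneg hΘ0 (hC w)
      linarith
    obtain ⟨κ, hκ⟩ : ∃ κ : ℝ, κ = min (min (κ1 / 2) κ2) (κ1 / (2 * C3)) := ⟨_, rfl⟩
    have hκ0 : 0 < κ := by
      rw [hκ]
      exact lt_min (lt_min (by positivity) hκ2) (by positivity)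
    have k1 : κ ≤ κ1 / 2 := by rw [hκ]; exact (min_le_left _ _).trans (min_le_left _ _)
    have k2 : κ ≤ κ2 := by rw [hκ]; exact (min_le_left _ _).trans (min_le_right _ _)
    have k3 : κ ≤ κ1 / (2 * C3) := by rw [hκ]; exact min_le_right _ _
    refine ⟨κ, hκ0, max (E1 + 1) E2, max J1 J2, max (max m1 m2) 1, fun r e hr he0 he z hz => ?_⟩
    rcases Nat.lt_or_ge r (R + 1) with hrR | hrR
    · exact (h1 r e (by omega) he0 he z hz).mono hκ0 (by linarith) ((Nat.le_succ _).trans (le_max_left _ _))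
        (le_max_left _ _) ((le_max_left _ _).trans (le_max_left _ _)) (le_max_right _ _) fun x h => h
    have hrr : r = R + 1 := by omega
    subst hrr
    rcases Nat.lt_or_ge (e (R + 1)) (J1 + 2) with heJ | heJ
    · refine (h2 (R + 1) e he (by omega) z ?_).mono hκ0 k2 (le_max_right _ _)
        (le_max_right _ _) ((le_max_right _ _).trans (le_max_left _ _)) (le_max_right _ _) fun x h => h
      obtain ⟨w, l, h3⟩ := hz
      exact ⟨0, Nat.zero_le _, w, l, h3⟩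
    obtain ⟨ε, hε, h3⟩ := h1 R e le_rfl he0 (fun i j hij hj => he i j hij (by omega)) z hz
    refine ⟨ε, hε, fun x hx hyp m hm hxm => ?_⟩
    have hm1' : 1 ≤ m := (le_max_right _ _).trans hm
    have m1r : (1 : ℝ) ≤ m := by exact_mod_cast hm1'
    have m0r : (0 : ℝ) < m := by linarith
    have x0 : 0 < x := by linarith
    have e1 : x ^ (E1 + 1) ≤ x ^ (max (E1 + 1) E2) := pow_le_pow_right₀ hx (le_max_left _ _)
    have e2 : x ^ E1 ≤ x ^ (E1 + 1) := pow_le_pow_right₀ hx (Nat.le_succ _)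
    have h4 := h3 x hx (fun k hk => hyp k (by omega)) m
      (((le_max_left _ _).trans (le_max_left _ _)).trans hm)
      (e2.trans (e1.trans (hxm.trans (mul_le_mul_of_nonneg_right (by linarith) m0r.le))))
    -- the last term
    obtain ⟨F, hF⟩ : ∃ F : ℝ, F = ∑ w : W, (∑ l, (z (R + 1) w l : ℝ) * θ l) *
        (T w.1 m * ((m : ℝ) ^ e (R + 1))⁻¹) := ⟨_, rfl⟩
    have hSM : SM θ W (R + 1) e z m = SM θ W R e z m + F := by
      unfold SM
      rw [Finset.sum_range_succ, hF]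
    have hFb : |F| ≤ x * C3 * ((m : ℝ) ^ (J1 + 1))⁻¹ := by
      have h5 : ((m : ℝ) ^ e (R + 1))⁻¹ ≤ ((m : ℝ) ^ (J1 + 1))⁻¹ :=
        inv_anti₀ (by positivity) (pow_le_pow_right₀ m1r (by omega))
      calc |F| ≤ ∑ w : W, |(∑ l, (z (R + 1) w l : ℝ) * θ l) * (T w.1 m * ((m : ℝ) ^ e (R + 1))⁻¹)| := by
            rw [hF]
            exact Finset.abs_sum_le_sum_abs _ _
        _ ≤ ∑ w : W, (x * ∑ l, |θ l|) * (C w * ((m : ℝ) ^ (J1 + 1))⁻¹) := by
            refine Finset.sum_le_sum fun w _ => ?_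
            rw [abs_mul]
            have t0 := T_nonneg (hW _ w.2) m
            refine mul_le_mul ?_ ?_ (abs_nonneg _) (by positivity)
            · rw [Finset.mul_sum]
              refine (Finset.abs_sum_le_sum_abs _ _).trans (Finset.sum_le_sum fun l _ => ?_)
              rw [abs_mul]
              exact mul_le_mul_of_nonneg_right (hyp (R + 1) le_rfl w l) (abs_nonneg _)
            · rw [abs_of_nonneg (by positivity)]
              exact mul_le_mul (hT w m) h5 (by positivity) (hC w)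
        _ = x * (∑ w : W, (∑ l, |θ l|) * C w) * ((m : ℝ) ^ (J1 + 1))⁻¹ := by
            have e9 : ∀ w : W, (x * ∑ l, |θ l|) * (C w * ((m : ℝ) ^ (J1 + 1))⁻¹) =
                ((∑ l, |θ l|) * C w) * (x * ((m : ℝ) ^ (J1 + 1))⁻¹) := fun w => by ring
            rw [Finset.sum_congr rfl fun w _ => e9 w, ← Finset.sum_mul]
            ring
        _ ≤ _ := by
            refine mul_le_mul_of_nonneg_right (mul_le_mul_of_nonneg_left ?_ x0.le) (by positivity)
            rw [hC3]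
            linarith
    have h6 : x * C3 * ((m : ℝ) ^ (J1 + 1))⁻¹ ≤ κ1 / 2 * (x ^ E1)⁻¹ * ((m : ℝ) ^ J1)⁻¹ := by
      have h7 : x ^ (E1 + 1) * (2 * C3) ≤ κ1 * m := by
        have h8 := (e1.trans hxm).trans (mul_le_mul_of_nonneg_right k3 m0r.le)
        rw [div_mul_eq_mul_div, le_div_iff₀ (by positivity)] at h8
        exact h8
      have h9 : x * C3 ≤ κ1 / 2 * (x ^ E1)⁻¹ * m := by
        rw [mul_comm (κ1 / 2), mul_assoc, inv_mul_eq_div, le_div_iff₀ (by positivity)]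
        calc x * C3 * x ^ E1 = x ^ (E1 + 1) * (2 * C3) / 2 := by ring
          _ ≤ κ1 * m / 2 := by linarith
          _ = _ := by ring
      calc x * C3 * ((m : ℝ) ^ (J1 + 1))⁻¹ ≤ (κ1 / 2 * (x ^ E1)⁻¹ * m) * ((m : ℝ) ^ (J1 + 1))⁻¹ :=
            mul_le_mul_of_nonneg_right h9 (by positivity)
        _ = _ := by
            rw [pow_succ]
            field_simp
    have h10 : κ * (x ^ (max (E1 + 1) E2))⁻¹ * ((m : ℝ) ^ (max J1 J2))⁻¹ ≤
        κ1 / 2 * (x ^ E1)⁻¹ * ((m : ℝ) ^ J1)⁻¹ := by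
      refine mul_le_mul (mul_le_mul k1 (inv_anti₀ (by positivity) (e2.trans e1)) (by positivity)
        (by positivity)) (inv_anti₀ (by positivity) (pow_le_pow_right₀ m1r (le_max_left _ _)))
        (by positivity) (by positivity)
    have h11 : κ1 * (x ^ E1)⁻¹ * ((m : ℝ) ^ J1)⁻¹ = κ1 / 2 * (x ^ E1)⁻¹ * ((m : ℝ) ^ J1)⁻¹ +
        κ1 / 2 * (x ^ E1)⁻¹ * ((m : ℝ) ^ J1)⁻¹ := by ring
    have h12 : -|F| ≤ ε * F := by
      rcases hε with rfl | rfl
      · rw [one_mul]; exact neg_abs_le F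
      · rw [neg_one_mul]; exact neg_le_neg (le_abs_self F)
    rw [hSM, mul_add]
    linarith

end Pool.Agent.U623.HB
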